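import Pool.Agent.Q26.PD.Corr
import Pool.Agent.Q21.CL.Len

/-!
# Products of `h` consecutive values of the Liouville function: palindromic lengths, lengths with permuted digits, and
lengths from automatic sets

Definitions used. In `Pool.Agent.Q21.CL`: `lam n`: the Liouville function; `prodL a β h n`: the product
`λ(a n + β) λ(a (n + 1) + β) ... λ(a (n + h - 1) + β)`; `Good a β M R ξ h`: for all `l` and all `Y ≤ X ≤ M`, the sum of
`ξ l n * prodL a β h n` over `Y < n ≤ X` is at most `(X - Y) / 2 + R` in absolute value, and the sum of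
`ξ l n * λ(a (n + h) + β)` is at most `R`. In `Pool.Agent.TH872.Tr`: `num b k E`: the number of the palindromes with
exactly `k` digits in base `b` which have the property `E`; `value b k κ c d z`: the integer `c + κ v`, where `v` has
the pair of digits `d i` at the positions `i` and `k - 1 - i`, for `i < k / 2`, and, if `k` is odd, the middle digit
`z`; `Prob b k w u E`: the probability of the event `E` if the pairs `d i` and `z` are chosen independently of each
other with the distributions `w i` and `u`; `Pairs b k η w`: the `w i` are distributions of pairs of digits, and two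
independent copies of the pair number `i` (`i ≥ 1`) differ in both digits with a probability of at least `η`. In
`Pool.Agent.TH872.An`: `Spread b k η d`: the integers `d i` (`i < k`) are digits in base `b`, and no digit is taken at
more than `(1 - η) k` of the `k` places `i`; `V b d σ`: the integer with the digit `d (σ i)` at the place `i`.
From Mathlib: `DFA ℕ σ`: the deterministic automata with the set of states `σ` and the alphabet `ℕ`; `M.accepts`: the
set of the words accepted by `M`; `Nat.digits b v`: the digits of `v` in base `b`, from the least significant to the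
most significant one.
-/

set_option autoImplicit false

namespace Pool.Agent.Results.MP_a14ce1_nt.DigitStructuredLengths

open Finset Pool.Agent.TH872.Tr Pool.Agent.Q21.CL

open Classical in
/-- The number of the integers `0 ≤ v < N` with the property `E` whose base `b` digits are accepted by the
automaton `M`. -/
noncomputable def numA {σ : Type} (b : ℕ) (M : DFA ℕ σ) (N : ℕ) (E : ℕ → Prop) : ℝ :=
  (((range N).filter fun v => Nat.digits b v ∈ M.accepts ∧ E v).card : ℝ)

/-- The length `h` is positive and not good. -/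
def BadLength (a β M : ℕ) (R : ℝ) {L : ℕ} (ξ : Fin L → ℕ → ℂ) (h : ℤ) : Prop :=
  0 < h ∧ ¬ Good a β M R ξ h.toNat

lemma bad_eq (a β M : ℕ) (ha : 1 ≤ a) (R : ℝ) {L : ℕ} (ξ : Fin L → ℕ → ℂ) (v : ℤ) :
    Bad a β M R ξ ((β : ℤ) + a * v) = BadLength a β M R ξ v := propext (bad_iff a β M ha R ξ v)

lemma adm (b a B T U k : ℕ) (hb : 2 ≤ b) (ha : 1 ≤ a) (hk : 8 ≤ k) (hkU : k ^ U * 2 ≤ b ^ k) (β L : ℕ) (hL : L ≤ k ^ T)
    (ξ : Fin L → ℕ → ℂ) (hξ : ∀ l n, ‖ξ l n‖ ≤ 1) :
    Pool.Agent.Q26.PD.AdmC Pool.Agent.H373R2.T7.liR b ((a + 1) * B) (T + 1) (U + 1) k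
      (Bad a β (B * b ^ k) ((b : ℝ) ^ k / (k : ℝ) ^ U) ξ) := by
  have hkr : (8 : ℝ) ≤ k := by exact_mod_cast hk
  have hk1 : (1 : ℝ) ≤ k := by linarith
  have hk0 : (0 : ℝ) < k := by linarith
  have hb0 : (0 : ℝ) < b := by exact_mod_cast (by omega : 0 < b)
  refine ⟨5 * L, ?_, fun _ => a, sys a β ξ, fun _ _ => ha, ?_, ?_⟩
  · have h1 : 5 * L ≤ k ^ (T + 1) := by
      calc 5 * L ≤ k * k ^ T := Nat.mul_le_mul (by omega) hL
        _ = k ^ (T + 1) := by rw [pow_succ]; ring
    exact_mod_cast h1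
  · intro l _ n _ _
    exact (sys_norm a β ξ hξ l n).trans (one_le_pow₀ hk1)
  · intro Y hY
    have e0 : ((b ^ k : ℕ) : ℝ) = (b : ℝ) ^ k := by push_cast; rfl
    have h2 : 4 * ((b : ℝ) ^ k / (k : ℝ) ^ (U + 1)) + 1 ≤ (b : ℝ) ^ k / (k : ℝ) ^ U := by
      have h3 : (2 : ℝ) ≤ (b : ℝ) ^ k / (k : ℝ) ^ U := by
        rw [le_div_iff₀ (by positivity), mul_comm]
        exact_mod_cast hkU
      have h4 : (b : ℝ) ^ k / (k : ℝ) ^ (U + 1) ≤ (b : ℝ) ^ k / (k : ℝ) ^ U / 8 := by
        rw [pow_succ, ← div_div]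
        apply div_le_div_of_nonneg_left (by positivity) (by norm_num) hkr
      linarith
    obtain ⟨q, hq, Z, hZ, h5⟩ := bad_large a β (B * b ^ k) ha ξ hξ _ ((b : ℝ) ^ k / (k : ℝ) ^ (U + 1))
      (by positivity) h2 Y hY
    refine ⟨q, hq, Z, ?_, ?_⟩
    · calc a * Z ≤ (a + 1) * (B * b ^ k) := Nat.mul_le_mul (by omega) hZ
        _ = _ := by ring
    · rw [e0]
      exact h5

lemma pow_small (b A C : ℕ) (hb : 2 ≤ b) : ∃ k₀ : ℕ, ∀ k : ℕ, k₀ ≤ k → k ^ A * C ≤ b ^ k := by
  have h1 := tendsto_pow_const_div_const_pow_of_one_lt A (by exact_mod_cast (by omega : 1 < b) : (1 : ℝ) < b)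
  have h2 := h1.eventually (gt_mem_nhds (by positivity : (0 : ℝ) < 1 / (C + 1)))
  obtain ⟨k₀, h3⟩ := Filter.eventually_atTop.1 h2
  refine ⟨k₀, fun k hk => ?_⟩
  have h4 := h3 k hk
  have hb0 : (0 : ℝ) < (b : ℝ) ^ k := by
    have : (0 : ℝ) < b := by exact_mod_cast (by omega : 0 < b)
    positivity
  rw [div_lt_div_iff₀ hb0 (by positivity), one_mul] at h4
  have h5 : ((k ^ A * C : ℕ) : ℝ) ≤ ((b ^ k : ℕ) : ℝ) := by
    push_cast
    have : (0 : ℝ) ≤ (k : ℝ) ^ A := by positivity
    nlinarith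
  exact_mod_cast h5

lemma log_pow_small (Q : ℕ) : ∃ N0 : ℕ, ∀ N : ℕ, N0 ≤ N → 4 * Real.log N ^ Q ≤ N := by
  have h1 := (isLittleO_log_rpow_rpow_atTop (r := (Q : ℝ)) (s := 1) (by norm_num)).def (c := 1 / 4) (by norm_num)
  rw [Filter.eventually_atTop] at h1
  obtain ⟨x0, h0⟩ := h1
  refine ⟨⌈x0⌉₊ + 3, fun N hN => ?_⟩
  have hx : x0 ≤ N := (Nat.le_ceil x0).trans (by exact_mod_cast (by omega : ⌈x0⌉₊ ≤ N))
  have hN3 : (3 : ℝ) ≤ N := by exact_mod_cast (by omega : 3 ≤ N)
  have h2 := h0 N hx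
  have hlog : 0 < Real.log N := Real.log_pos (by linarith)
  rw [Real.rpow_natCast, Real.rpow_one, Real.norm_of_nonneg (by positivity), Real.norm_of_nonneg (by positivity)] at h2
  linarith

lemma cbound (b a B k : ℕ) (c : ℤ) (hc : |c| ≤ B * (b : ℤ) ^ k) (β : ℕ) (hβ : β ≤ B * b ^ k) :
    |(β : ℤ) + a * c| ≤ ((((a + 1) * B : ℕ)) : ℤ) * (b : ℤ) ^ k := by
  have h1 := abs_le.1 hc
  have h2 : (β : ℤ) ≤ B * (b : ℤ) ^ k := by exact_mod_cast hβ
  have h3 : (0 : ℤ) ≤ β := Nat.cast_nonneg _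
  have ha0 : (0 : ℤ) ≤ a := Nat.cast_nonneg _
  have h4 : (a : ℤ) * c ≤ a * (B * (b : ℤ) ^ k) := mul_le_mul_of_nonneg_left h1.2 ha0
  have h5 : (a : ℤ) * (-(B * (b : ℤ) ^ k)) ≤ a * c := mul_le_mul_of_nonneg_left h1.1 ha0
  have h6 : (0 : ℤ) ≤ B * (b : ℤ) ^ k := by positivity
  rw [abs_le]
  push_cast
  constructor <;> nlinarith

lemma inv_le (k U : ℕ) (hk : 1 ≤ k) : 1 / (k : ℝ) ^ (U + 1) ≤ 1 / (k : ℝ) ^ U := by
  have hk1 : (1 : ℝ) ≤ k := by exact_mod_cast hk
  exact one_div_le_one_div_of_le (by positivity) (pow_le_pow_right₀ hk1 (by omega))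

lemma div_le (x : ℝ) (hx : 0 ≤ x) (k U : ℕ) (hk : 1 ≤ k) : x / (k : ℝ) ^ (U + 1) ≤ x / (k : ℝ) ^ U := by
  have hk1 : (1 : ℝ) ≤ k := by exact_mod_cast hk
  exact div_le_div_of_nonneg_left hx (by positivity) (pow_le_pow_right₀ hk1 (by omega))

open Classical in
/-- Let `b ≥ 2`, `a ≥ 1`, `B`, `T`, `U` and `κ ≠ 0` be fixed. In (1)-(3) let also `η > 0` be fixed, let `k` be large, let
`|c| ≤ B b ^ k` and `β ≤ B b ^ k`, and let at most `k ^ T` systems of weights `ξ l` with `|ξ l n| ≤ 1` be given. A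
length `h` is good if for all `l` and all `Y ≤ X ≤ B b ^ k`
`|∑_{Y < n ≤ X} ξ l n · λ(a n + β) λ(a (n + 1) + β) ... λ(a (n + h - 1) + β)| ≤ (X - Y) / 2 + b ^ k / k ^ U` and
`|∑_{Y < n ≤ X} ξ l n · λ(a (n + h) + β)| ≤ b ^ k / k ^ U`.

(1) For all the palindromes `v` with `k` digits in base `b`, up to a proportion of at most `1 / k ^ U` of them, the
length `h = c + κ v` is good if it is positive.

(2) The same holds with a probability of at least `1 - 1 / k ^ U` if `v` is a random integer with `k` digits in base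
`b` such that the pairs formed by the digits at the positions `i` and `k - 1 - i` are independent of each other for
different `i` (inside of a pair the digits may depend on each other in an arbitrary way), and two independent
copies of a pair (with `i ≥ 1`) differ in both digits with a probability of at least `η`.

(3) Let `v < b ^ k` be an ARBITRARY integer with the digits `d i` in base `b`, such that no digit is taken at more than
`(1 - η) k` of the `k` places. For all the permutations of the digits, up to a proportion of at most `1 / k ^ U` of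
the `k!` permutations, the length `h = c + κ v'` is good if it is positive, where `v'` is the integer with the
permuted digits.

(4) Let `S` be a `b`-automatic set (the set of the integers whose base `b` digits are accepted by a finite automaton)
which is not sparse: the number of its elements below `N` is not bounded by a power of `log N`. Let `N` be large,
`|c| ≤ B N`, `β ≤ B N`, and let at most `log ^ T N` systems of weights be given. For all the elements `v < N` of `S`
with at most `#(S ∩ [0, N)) / log ^ U N` exceptions the length `h = c + κ v` is good if it is positive (with `N` and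
`log N` instead of `b ^ k` and `k`). -/
theorem result (b a B T U : ℕ) (hb : 2 ≤ b) (ha : 1 ≤ a) (κ : ℤ) (hκ : κ ≠ 0) :
    (∀ η : ℝ, 0 < η → ∃ k₀ : ℕ, ∀ k : ℕ, k₀ ≤ k → ∀ c : ℤ, |c| ≤ B * (b : ℤ) ^ k → ∀ β : ℕ, β ≤ B * b ^ k →
      ∀ L : ℕ, L ≤ k ^ T → ∀ ξ : Fin L → ℕ → ℂ, (∀ l n, ‖ξ l n‖ ≤ 1) →
      (num b k (fun v => BadLength a β (B * b ^ k) ((b : ℝ) ^ k / (k : ℝ) ^ U) ξ (c + κ * v)) : ℝ) ≤
        num b k (fun _ => True) / (k : ℝ) ^ U ∧
      (∀ (w : ℕ → ℕ × ℕ → ℝ) (u : ℕ → ℝ), Pairs b k η w → (∀ a, 0 ≤ u a) → ∑ a ∈ range b, u a = 1 →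
        Prob b k w u (fun d z => BadLength a β (B * b ^ k) ((b : ℝ) ^ k / (k : ℝ) ^ U) ξ (value b k κ c d z)) ≤
          1 / (k : ℝ) ^ U) ∧
      (∀ d : Fin k → ℕ, Pool.Agent.TH872.An.Spread b k η d →
        ((univ.filter fun σ : Equiv.Perm (Fin k) => BadLength a β (B * b ^ k) ((b : ℝ) ^ k / (k : ℝ) ^ U) ξ
          (c + κ * (Pool.Agent.TH872.An.V b d σ : ℕ))).card : ℝ) ≤ k.factorial / (k : ℝ) ^ U)) ∧
    (∀ (σ : Type) [Finite σ] (M : DFA ℕ σ),
      (∀ k : ℕ, ∃ᶠ N : ℕ in Filter.atTop, Real.log N ^ k < numA b M N (fun _ => True)) →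
      ∃ N₀ : ℕ, ∀ N : ℕ, N₀ ≤ N → ∀ c : ℤ, |c| ≤ B * N → ∀ β : ℕ, β ≤ B * N →
      ∀ L : ℕ, (L : ℝ) ≤ Real.log N ^ T → ∀ ξ : Fin L → ℕ → ℂ, (∀ l n, ‖ξ l n‖ ≤ 1) →
      numA b M N (fun v => BadLength a β (B * N) ((N : ℝ) / Real.log N ^ U) ξ (c + κ * v)) ≤
        numA b M N (fun _ => True) / Real.log N ^ U) := by
  have hκa : (a : ℤ) * κ ≠ 0 := mul_ne_zero (by omega) hκ
  constructor
  · intro η hη
    obtain ⟨k₀, h0⟩ := Pool.Agent.Q26.PD.mir_corr b ((a + 1) * B) (T + 1) (U + 1) hb ((a : ℤ) * κ) hκa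
      Pool.Agent.H373R2.T7.liR Pool.Agent.W93.LM.nice_liR η hη
    obtain ⟨k₁, h1⟩ := Pool.Agent.Q26.PD.an_corr b ((a + 1) * B) (T + 1) (U + 1) hb ((a : ℤ) * κ) hκa
      Pool.Agent.H373R2.T7.liR Pool.Agent.W93.LM.nice_liR η hη
    obtain ⟨k₂, h2⟩ := pow_small b U 2 hb
    refine ⟨k₀ + k₁ + k₂ + 8, fun k hk c hc β hβ L hL ξ hξ => ?_⟩
    have hadm := adm b a B T U k hb ha (by omega) (h2 k (by omega)) β L hL ξ hξ
    have hcb := cbound b a B k c hc β hβ
    obtain ⟨g1, g2⟩ := h0 k (by omega) ((β : ℤ) + a * c) hcb _ hadm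
    refine ⟨?_, ?_, ?_⟩
    · have e1 : ∀ v : ℕ, ((β : ℤ) + a * c) + ((a : ℤ) * κ) * (v : ℤ) = (β : ℤ) + a * (c + κ * v) := by
        intro v; ring
      simp only [e1, bad_eq a β _ ha] at g2
      exact g2.trans (div_le _ (Nat.cast_nonneg _) k U (by omega))
    · intro w u hw hu hu1
      have g3 := g1 w u hw hu hu1
      have e1 : ∀ d z, value b k ((a : ℤ) * κ) ((β : ℤ) + a * c) d z = (β : ℤ) + a * (value b k κ c d z) := by
        intro d z
        unfold value
        ring
      simp only [e1, bad_eq a β _ ha] at g3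
      exact g3.trans (inv_le k U (by omega))
    · intro d hd
      have g3 := h1 k (by omega) d hd ((β : ℤ) + a * c) hcb _ hadm
      have e1 : ∀ v : ℕ, ((β : ℤ) + a * c) + ((a : ℤ) * κ) * (v : ℤ) = (β : ℤ) + a * (c + κ * v) := by
        intro v; ring
      simp only [e1, bad_eq a β _ ha] at g3
      exact g3.trans (div_le _ (Nat.cast_nonneg _) k U (by omega))
  · intro σ _ M hM
    have := Fintype.ofFinite σ
    have hnum : ∀ N, numA b M N (fun _ => True) = (((range N).filter fun v => Nat.digits b v ∈ M.accepts).card : ℝ) := by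
      intro N
      unfold numA
      congr 2
      ext v
      simp only [mem_filter, and_true]
    obtain ⟨N₀, h0⟩ := Pool.Agent.W93.AU.au_corr b hb M (fun k => (hM k).mono fun N hN => by rw [hnum] at hN; exact hN)
      Pool.Agent.H373R2.T7.liR Pool.Agent.W93.LM.nice_liR ((a : ℤ) * κ) hκa ((a + 1) * B) (T + 1) (U + 1)
    obtain ⟨N₁, h1⟩ := Pool.Agent.H373R2.T7.ev_L' 8
    obtain ⟨N₂, h2⟩ := log_pow_small U
    refine ⟨N₀ + N₁ + N₂ + 3, fun N hN c hc β hβ L hL ξ hξ => ?_⟩
    have hlog8 := h1 N (by omega)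
    have hsm := h2 N (by omega)
    have hN0 : (0 : ℝ) < N := by exact_mod_cast (by omega : 0 < N)
    obtain ⟨W, hW⟩ : ∃ W, W = Real.log (N : ℝ) := ⟨_, rfl⟩
    rw [← hW] at hlog8 hsm hL ⊢
    have hW8 : 8 ≤ W := by linarith
    have hW0 : 0 < W := by linarith
    have hW1 : 1 ≤ W := by linarith
    have hL5 : ((5 * L : ℕ) : ℝ) ≤ W ^ (T + 1) := by
      push_cast
      calc 5 * (L : ℝ) ≤ W * W ^ T := mul_le_mul (by linarith) hL (Nat.cast_nonneg _) (by linarith)
        _ = W ^ (T + 1) := by rw [pow_succ]; ring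
    have hcb : |(β : ℤ) + a * c| ≤ ((((a + 1) * B : ℕ)) : ℤ) * N := by
      have h1 := abs_le.1 hc
      have h2 : (β : ℤ) ≤ B * N := by exact_mod_cast hβ
      have h3 : (0 : ℤ) ≤ β := Nat.cast_nonneg _
      have ha0 : (0 : ℤ) ≤ a := Nat.cast_nonneg _
      have h4 : (a : ℤ) * c ≤ a * (B * N) := mul_le_mul_of_nonneg_left h1.2 ha0
      have h5 : (a : ℤ) * (-(B * N)) ≤ a * c := mul_le_mul_of_nonneg_left h1.1 ha0
      have h6 : (0 : ℤ) ≤ B * N := by positivity
      rw [abs_le]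
      push_cast
      constructor <;> nlinarith
    have hR : 4 * ((N : ℝ) / W ^ (U + 1)) + 1 ≤ (N : ℝ) / W ^ U := by
      have h3 : (4 : ℝ) ≤ (N : ℝ) / W ^ U := by
        rw [le_div_iff₀ (by positivity)]
        exact hsm
      have h4 : (N : ℝ) / W ^ (U + 1) ≤ (N : ℝ) / W ^ U / 8 := by
        rw [pow_succ, ← div_div]
        apply div_le_div_of_nonneg_left (by positivity) (by norm_num) hW8
      linarith
    have key := h0 N (by omega) ((β : ℤ) + a * c) hcb (5 * L) (by rw [← hW]; exact hL5)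
      (fun q m => if a ∣ m then sys a β ξ q (m / a) else 0) (by
        intro q _ m _ _
        rw [← hW]
        split_ifs
        · exact (sys_norm a β ξ hξ _ _).trans (one_le_pow₀ hW1)
        · rw [norm_zero]; positivity)
      (fun v => Bad a β (B * N) ((N : ℝ) / W ^ U) ξ ((β : ℤ) + a * (c + κ * v))) (by
        intro v hv
        obtain ⟨q, hq, Z, hZ, h5⟩ := bad_large a β (B * N) ha ξ hξ _ ((N : ℝ) / W ^ (U + 1)) (by positivity) hR _ hv
        refine ⟨q, hq, a * Z, ?_, ?_⟩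
        · calc a * Z ≤ (a + 1) * (B * N) := Nat.mul_le_mul (by omega) hZ
            _ = _ := by ring
        · rw [← hW]
          refine lt_of_lt_of_eq h5 ?_
          have e1 := Pool.Agent.W93.LM.spread
            (fun m => Pool.Agent.H373R2.T7.exI Pool.Agent.H373R2.T7.liR ((m : ℤ) + ((β : ℤ) + a * (c + κ * v))))
            (sys a β ξ q) a Z ha
          have e2 : ((β : ℤ) + a * c) + ((a : ℤ) * κ) * (v : ℤ) = (β : ℤ) + a * (c + κ * v) := by ring
          rw [e2]
          congr 1)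
    rw [hnum]
    have e3 : numA b M N (fun v => BadLength a β (B * N) ((N : ℝ) / W ^ U) ξ (c + κ * v)) =
        (((range N).filter fun v : ℕ => Nat.digits b v ∈ M.accepts ∧
          Bad a β (B * N) ((N : ℝ) / W ^ U) ξ ((β : ℤ) + a * (c + κ * v))).card : ℝ) := by
      simp only [bad_eq a β _ ha]
      unfold numA
      congr 2
    rw [e3]
    refine (le_trans (le_of_eq ?_) key).trans ?_
    · congr 2
    · rw [← hW]
      exact div_le_div_of_nonneg_left (Nat.cast_nonneg _) (by positivity) (pow_le_pow_right₀ hW1 (by omega))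

end Pool.Agent.Results.MP_a14ce1_nt.DigitStructuredLengths
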