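import Pool.Agent.Y958.TC.Two
import Pool.Agent.Y958.U.Diag
import Pool.Agent.Y304.U.Avc
import Pool.Agent.Y304.U.Pw

set_option autoImplicit false

/-!
# Products of `k` consecutive values of the Liouville function: the bound `1 / 2` for every `k`

At almost all scales the two point correlations of the Liouville function are small (library theorem
`Pool.Agent.Y958.TC.two`).  Two neighbouring products `P(n) = λ(n) λ(n+t) ⋯ λ(n+(k-1)t)` and `P(n+t)`
have the product `λ(n) λ(n+kt)`, whatever the length `k`.  So `P` changes its sign between `n` and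
`n + t` for half of the `n`, and neither sign can occur for more than three quarters of the `n`.
-/

namespace Pool.Agent.Results.MP_a14ce1_nt.HalfBoundAllLengths

open Finset Filter Topology
open Pool.Agent.Y958.U (LZ LZ_union LZ_bdd LZ_iff LZ_sub diag' abel_log ls li ls_eq li_mem li_not)
open Pool.Agent.TH823.MRS (ExpoSmall FlipAll lam_bdd lam_flip expo_lam)
open Pool.Agent.H376R2.MR (lam)
open Pool.Agent.Y958.TC (ind Av)

/-- The Liouville function. -/
def liouville (n : ℕ) : ℤ := (-1) ^ ArithmeticFunction.cardFactors n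

/-- `P k t n = λ(n) λ(n + t) ⋯ λ(n + (k - 1) t)`, a product of `k` values of the Liouville function
(of `k` consecutive values for `t = 1`). -/
def P (k t n : ℕ) : ℤ := ∏ j ∈ range k, liouville (n + j * t)

lemma liou_sq (n : ℕ) : liouville n * liouville n = 1 := by
  unfold liouville
  rw [← mul_pow]
  norm_num

lemma P_sq (k t n : ℕ) : P k t n * P k t n = 1 := by
  unfold P
  rw [← prod_mul_distrib]
  exact prod_eq_one fun j _ => liou_sq _

lemma P_mul (k t n : ℕ) : P k t n * P k t (n + t) = liouville n * liouville (n + k * t) := by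
  have h1 : P k t n * liouville (n + k * t) = P k t (n + t) * liouville n := by
    have e1 : ∏ j ∈ range (k + 1), liouville (n + j * t) = P k t n * liouville (n + k * t) := by
      rw [prod_range_succ]
      rfl
    have e2 : ∏ j ∈ range (k + 1), liouville (n + j * t) = P k t (n + t) * liouville n := by
      rw [prod_range_succ', zero_mul, add_zero]
      congr 1
      unfold P
      refine prod_congr rfl fun j _ => ?_
      congr 1
      ring
    rw [← e1, e2]
  have h2 := P_sq k t (n + t)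
  have h3 := liou_sq (n + k * t)
  calc P k t n * P k t (n + t)
      = (P k t n * liouville (n + k * t)) * P k t (n + t) * liouville (n + k * t) := by
        linear_combination (- (P k t n * P k t (n + t))) * h3
    _ = (P k t (n + t) * liouville n) * P k t (n + t) * liouville (n + k * t) := by rw [h1]
    _ = liouville n * liouville (n + k * t) := by
        linear_combination (liouville n * liouville (n + k * t)) * h2

lemma P_cases (k t n : ℕ) : P k t n = 1 ∨ P k t n = -1 := by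
  have h := P_sq k t n
  exact mul_self_eq_one_iff.1 h

lemma P_abs (k t n : ℕ) : |(P k t n : ℝ)| = 1 := by
  rcases P_cases k t n with h | h <;> rw [h] <;> norm_num

/-- the indicator of a residue class -/
def W (t r n : ℕ) : ℝ := if n % t = r % t then 1 else 0

lemma W_nonneg (t r n : ℕ) : 0 ≤ W t r n := by unfold W; split_ifs <;> norm_num
lemma W_le (t r n : ℕ) : W t r n ≤ 1 := by unfold W; split_ifs <;> norm_num
lemma W_abs (t r n : ℕ) : |W t r n| ≤ 1 := by unfold W; split_ifs <;> norm_num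
lemma W_per (t r n : ℕ) : W t r (n + t) = W t r n := by
  unfold W
  rw [Nat.add_mod_right]

lemma shift_sum (G : ℕ → ℝ) (hG : ∀ n, |G n| ≤ 1) (m N : ℕ) :
    |∑ n ∈ Icc 1 N, G (n + m) - ∑ n ∈ Icc 1 N, G n| ≤ 2 * m := by
  induction m with
  | zero => simp
  | succ m ih =>
    have h1 : ∀ N : ℕ, ∑ n ∈ Icc 1 N, G (n + (m + 1)) - ∑ n ∈ Icc 1 N, G (n + m) =
        G (N + 1 + m) - G (1 + m) := by
      intro N
      induction N with
      | zero => simp
      | succ N ihN =>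
        rw [sum_Icc_succ_top (by omega), sum_Icc_succ_top (by omega)]
        have e1 : N + 1 + (m + 1) = N + 1 + 1 + m := by ring
        rw [e1]
        linarith
    have h2 := h1 N
    have h3 := hG (N + 1 + m)
    have h4 := hG (1 + m)
    rw [abs_le] at ih h3 h4 ⊢
    push_cast
    constructor <;> linarith [ih.1, ih.2, h3.1, h3.2, h4.1, h4.2]

lemma count_W (t r : ℕ) (ht : 1 ≤ t) (N : ℕ) : |∑ n ∈ Icc 1 N, W t r n - (N : ℝ) / t| ≤ 1 := by
  have ht0 : (0 : ℝ) < t := by exact_mod_cast ht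
  have h1 : ∑ n ∈ Icc 1 N, W t r n = (((Icc 1 N).filter (fun n => n % t = r % t)).card : ℝ) := by
    unfold W
    rw [card_filter]
    push_cast
    rfl
  have h2 : (Icc 1 N).filter (fun n => n % t = r % t) = (Ioc 0 N).filter (fun n => n ≡ r [MOD t]) := by
    ext n
    rw [mem_filter, mem_filter, Finset.mem_Icc, Finset.mem_Ioc]
    constructor
    · rintro ⟨⟨a, b⟩, c⟩
      exact ⟨⟨by omega, b⟩, c⟩
    · rintro ⟨⟨a, b⟩, c⟩
      exact ⟨⟨by omega, b⟩, c⟩
  have h3 := Nat.Ioc_filter_modEq_card 0 N (by omega : 0 < t) r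
  rw [h1, h2]
  set c := ((Ioc 0 N).filter (fun n => n ≡ r [MOD t])).card with hc
  set x : ℚ := ((N : ℚ) - r) / t with hx
  set y : ℚ := (((0 : ℕ) : ℚ) - r) / t with hy
  have hxy : x - y = (N : ℚ) / t := by
    rw [hx, hy]
    push_cast
    ring
  have hxy0 : y ≤ x := by
    have : (0 : ℚ) ≤ (N : ℚ) / t := by positivity
    linarith
  have hfl : ⌊y⌋ ≤ ⌊x⌋ := Int.floor_le_floor hxy0
  have h4 : (c : ℤ) = ⌊x⌋ - ⌊y⌋ := by
    rw [h3]
    exact max_eq_left (by omega)
  have h5 : (c : ℚ) = ((⌊x⌋ - ⌊y⌋ : ℤ) : ℚ) := by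
    rw [← h4]
    push_cast
    rfl
  have h6 : |(c : ℚ) - (N : ℚ) / t| ≤ 1 := by
    rw [h5, ← hxy]
    push_cast
    have a1 := Int.floor_le x
    have a2 := Int.lt_floor_add_one x
    have a3 := Int.floor_le y
    have a4 := Int.lt_floor_add_one y
    rw [abs_le]
    constructor <;> linarith
  have h7 : ((|(c : ℚ) - (N : ℚ) / t| : ℚ) : ℝ) ≤ ((1 : ℚ) : ℝ) := by exact_mod_cast h6
  push_cast at h7
  exact h7

/-- the sum of the two point correlations in a residue class -/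
noncomputable def T2 (k t r N : ℕ) : ℝ :=
  ∑ n ∈ Icc 1 N, W t r n * ((liouville n : ℝ) * (liouville (n + k * t) : ℝ))

lemma bound_P (k t r : ℕ) (ht : 1 ≤ t) (N : ℕ) :
    |∑ n ∈ Icc 1 N, W t r n * (P k t n : ℝ)| ≤ (1 / 2) * (N / t) + (1 / 2) * |T2 k t r N| + (t + 1) := by
  have h1 := shift_sum (fun n => W t r n * (P k t n : ℝ)) (by
    intro n
    rw [abs_mul, P_abs, mul_one]
    exact W_abs t r n) t N
  simp only [W_per] at h1
  have h2 := count_W t r ht N
  set S := ∑ n ∈ Icc 1 N, W t r n * (P k t n : ℝ) with hS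
  set S' := ∑ n ∈ Icc 1 N, W t r n * (P k t (n + t) : ℝ) with hS'
  have hpt : ∀ n, ((P k t n : ℝ)) * (P k t (n + t) : ℝ) =
      (liouville n : ℝ) * (liouville (n + k * t) : ℝ) := by
    intro n
    exact_mod_cast P_mul k t n
  have h3 : S + S' ≤ ∑ n ∈ Icc 1 N, W t r n + T2 k t r N := by
    rw [hS, hS', T2, ← sum_add_distrib, ← sum_add_distrib]
    refine sum_le_sum fun n _ => ?_
    rw [← hpt n]
    have hw := W_nonneg t r n
    have h4 : (P k t n : ℝ) + (P k t (n + t) : ℝ) ≤ 1 + (P k t n : ℝ) * (P k t (n + t) : ℝ) := by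
      rcases P_cases k t n with h | h <;> rcases P_cases k t (n + t) with h' | h' <;>
        rw [h, h'] <;> norm_num
    nlinarith
  have h3' : -(S + S') ≤ ∑ n ∈ Icc 1 N, W t r n + T2 k t r N := by
    rw [hS, hS', T2, ← sum_add_distrib, ← sum_add_distrib, ← sum_neg_distrib]
    refine sum_le_sum fun n _ => ?_
    rw [← hpt n]
    have hw := W_nonneg t r n
    have h4 : -((P k t n : ℝ) + (P k t (n + t) : ℝ)) ≤ 1 + (P k t n : ℝ) * (P k t (n + t) : ℝ) := by
      rcases P_cases k t n with h | h <;> rcases P_cases k t (n + t) with h' | h' <;>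
        rw [h, h'] <;> norm_num
    nlinarith
  have h5 := le_abs_self (T2 k t r N)
  rw [abs_le] at h1 h2 ⊢
  constructor <;> linarith [h1.1, h1.2, h2.1, h2.2]

lemma change_P (k t r : ℕ) (ht : 1 ≤ t) (N : ℕ) :
    |(((Icc 1 N).filter (fun n => n % t = r % t ∧ P k t n ≠ P k t (n + t))).card : ℝ) - N / (2 * t)| ≤
      (1 / 2) * |T2 k t r N| + 1 := by
  have h2 := count_W t r ht N
  have h1 : (((Icc 1 N).filter (fun n => n % t = r % t ∧ P k t n ≠ P k t (n + t))).card : ℝ) =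
      (1 / 2) * (∑ n ∈ Icc 1 N, W t r n) - (1 / 2) * T2 k t r N := by
    rw [card_filter]
    push_cast
    rw [T2, mul_sum, mul_sum, ← sum_sub_distrib]
    refine sum_congr rfl fun n _ => ?_
    have hpt : ((P k t n : ℝ)) * (P k t (n + t) : ℝ) =
        (liouville n : ℝ) * (liouville (n + k * t) : ℝ) := by
      exact_mod_cast P_mul k t n
    rw [← hpt]
    unfold W
    by_cases hr : n % t = r % t
    · rcases P_cases k t n with h | h <;> rcases P_cases k t (n + t) with h' | h' <;>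
        rw [h, h'] <;> simp [hr] <;> norm_num
    · simp [hr]
  rw [h1]
  have h5 := abs_le.1 (le_refl |T2 k t r N|)
  have e : (N : ℝ) / (2 * t) = (1 / 2) * (N / t) := by
    field_simp
  rw [e]
  rw [abs_le] at h2 ⊢
  constructor <;> linarith [h2.1, h2.2, h5.1, h5.2]

lemma T2_LZ (k t r : ℕ) (hk : 1 ≤ k) (ht : 1 ≤ t) (δ : ℝ) (hδ : 0 < δ) :
    LZ {N | δ * N < |T2 k t r N|} := by
  have h1 := Pool.Agent.Y958.TC.two (Pool.Agent.Y304.U.avc Pool.Agent.Y304.U.pw) lam lam_bdd lam_flip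
    expo_lam (k * t) (Nat.mul_pos hk ht) t ht (W t r) (W_abs t r) (W_per t r) (δ / 2) (by positivity)
  have h2 := LZ_union h1 (LZ_bdd {N | N < ⌈4 / δ⌉₊ + 1} _ fun n hn => hn)
  refine LZ_sub ?_ h2
  intro N hN
  by_cases hNK : N < ⌈4 / δ⌉₊ + 1
  · exact Or.inr hNK
  left
  rw [Set.mem_setOf_eq] at hN ⊢
  have hN1 : 1 ≤ N := by omega
  have hN0 : (0 : ℝ) < N := by exact_mod_cast hN1
  have hNr : 4 / δ ≤ N := (Nat.le_ceil _).trans (Nat.cast_le.2 (by omega))
  rw [div_le_iff₀ hδ] at hNr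
  set φ : ℕ → ℝ := fun n => W t r n * lam n * lam (n + k * t) with hφ
  have hφ1 : ∀ n, |φ n| ≤ 1 := by
    intro n
    have a1 : |((lam n : ℤ) : ℝ)| ≤ 1 := by exact_mod_cast lam_bdd n
    have a2 : |((lam (n + k * t) : ℤ) : ℝ)| ≤ 1 := by exact_mod_cast lam_bdd (n + k * t)
    rw [hφ]
    simp only
    rw [abs_mul, abs_mul]
    calc |W t r n| * |((lam n : ℤ) : ℝ)| * |((lam (n + k * t) : ℤ) : ℝ)| ≤ 1 * 1 * 1 := by
          gcongr
          exact W_abs t r n
      _ = 1 := by norm_num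
  have hT : T2 k t r N = ∑ n ∈ Icc 1 N, φ n := by
    rw [T2]
    refine sum_congr rfl fun n _ => ?_
    rw [hφ]
    simp only
    have b1 : ∀ m, ((lam m : ℤ) : ℝ) = (liouville m : ℝ) := fun m => by
      unfold lam liouville
      rfl
    rw [b1, b1, mul_assoc]
  have hR : ∑ n ∈ range N, φ n = φ 0 + ∑ n ∈ Icc 1 N, φ n - φ N := by
    have e1 : ∑ n ∈ range (N + 1), φ n = φ 0 + ∑ n ∈ Icc 1 N, φ n := by
      rw [range_eq_Ico, sum_eq_sum_Ico_succ_bot (by omega)]
      congr 1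
    rw [sum_range_succ] at e1
    linarith
  unfold Pool.Agent.Y958.TC.Av
  rw [abs_div, abs_of_pos hN0, lt_div_iff₀ hN0, hR, ← hT]
  have c1 := abs_le.1 (hφ1 0)
  have c2 := abs_le.1 (hφ1 N)
  have c3 : |T2 k t r N| ≤ |φ 0 + T2 k t r N - φ N| + 2 := by
    have c4 := abs_le.1 (le_refl |φ 0 + T2 k t r N - φ N|)
    rw [abs_le]
    constructor <;> linarith [c1.1, c1.2, c2.1, c2.2, c4.1, c4.2]
  nlinarith

/-- from almost all scales to logarithmic averages -/
lemma log_avg (F : ℕ → ℝ) (hF : ∀ n, |F n| ≤ 1) (C : ℝ) (hC : 0 ≤ C) (E : Set ℕ) (hE : LZ E)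
    (N₀ : ℕ) (h : ∀ N : ℕ, N₀ ≤ N → N ∉ E → |∑ n ∈ Icc 1 N, F n| ≤ C * N) (ε : ℝ) (hε : 0 < ε) :
    ∃ X₀ : ℕ, ∀ X : ℕ, X₀ ≤ X → |∑ n ∈ Icc 1 X, F n / n| ≤ (C + ε) * Real.log X := by
  classical
  have hE1 : LZ (E ∪ {n | n < N₀}) := LZ_union hE (LZ_bdd _ N₀ fun n hn => hn)
  obtain ⟨X₁, hX₁⟩ := (LZ_iff _).1 hE1 (ε / 2) (by positivity)
  have hlog : Tendsto (fun X : ℕ => Real.log X) atTop atTop :=
    Real.tendsto_log_atTop.comp tendsto_natCast_atTop_atTop
  obtain ⟨X₂, hX₂⟩ := eventually_atTop.1 (hlog.eventually_ge_atTop ((C + 1) * 2 / ε))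
  refine ⟨X₁ + X₂ + 2, fun X hX => ?_⟩
  have h1 := hX₁ X (by omega)
  have h2 := hX₂ X (by omega)
  have hS : ∀ N : ℕ, |∑ n ∈ Icc 1 N, F n| ≤ N := by
    intro N
    refine (abs_sum_le_sum_abs _ _).trans ((sum_le_sum fun k _ => hF _).trans (le_of_eq ?_))
    simp
  rw [abel_log]
  have h3 : |(∑ n ∈ Icc 1 X, F n) / ((X : ℝ) + 1)| ≤ 1 := by
    rw [abs_div, abs_of_pos (by positivity : (0 : ℝ) < (X : ℝ) + 1), div_le_one (by positivity)]
    have := hS X
    linarith
  have h4 : |∑ N ∈ Icc 1 X, (∑ n ∈ Icc 1 N, F n) * (1 / ((N : ℝ) * (N + 1)))| ≤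
      C * (1 + Real.log X) + ls (E ∪ {n | n < N₀}) X := by
    refine (abs_sum_le_sum_abs _ _).trans ?_
    have h5 : ∀ N ∈ Icc 1 X, |(∑ n ∈ Icc 1 N, F n) * (1 / ((N : ℝ) * (N + 1)))| ≤
        C * (1 / (N : ℝ)) + li (E ∪ {n | n < N₀}) N := by
      intro N hN
      rw [mem_Icc] at hN
      have hN0 : (0 : ℝ) < N := by exact_mod_cast (by omega : 0 < N)
      have e1 : (0 : ℝ) < 1 / ((N : ℝ) * (N + 1)) := by positivity
      rw [abs_mul, abs_of_pos e1]
      have e2 : (N : ℝ) * (1 / ((N : ℝ) * (N + 1))) ≤ 1 / N := by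
        rw [mul_one_div, div_le_div_iff₀ (by positivity) hN0]
        nlinarith
      by_cases hNE : N ∈ E ∪ {n | n < N₀}
      · rw [li_mem hNE]
        have : |∑ n ∈ Icc 1 N, F n| * (1 / ((N : ℝ) * (N + 1))) ≤ N * (1 / ((N : ℝ) * (N + 1))) :=
          mul_le_mul_of_nonneg_right (hS N) e1.le
        have h6 : 0 ≤ C * (1 / (N : ℝ)) := mul_nonneg hC (by positivity)
        linarith
      · rw [li_not hNE, add_zero]
        have h6 : N ∉ E := fun hh => hNE (Or.inl hh)
        have h7 : N₀ ≤ N := by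
          by_contra hcc
          exact hNE (Or.inr (not_le.1 hcc))
        calc |∑ n ∈ Icc 1 N, F n| * (1 / ((N : ℝ) * (N + 1))) ≤ C * N * (1 / ((N : ℝ) * (N + 1))) :=
              mul_le_mul_of_nonneg_right (h N h7 h6) e1.le
          _ = C * (N * (1 / ((N : ℝ) * (N + 1)))) := by ring
          _ ≤ C * (1 / N) := mul_le_mul_of_nonneg_left e2 hC
    refine (sum_le_sum h5).trans ?_
    rw [sum_add_distrib, ← mul_sum, ls_eq]
    apply add_le_add _ le_rfl
    apply mul_le_mul_of_nonneg_left _ hC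
    have h8 := harmonic_le_one_add_log X
    have h9 : ∑ i ∈ Icc 1 X, (1 : ℝ) / i = ((harmonic X : ℚ) : ℝ) := by
      rw [harmonic_eq_sum_Icc]
      push_cast
      apply sum_congr rfl
      intro i _
      rw [one_div]
    rw [h9]
    exact h8
  have h10 := abs_add_le (∑ N ∈ Icc 1 X, (∑ n ∈ Icc 1 N, F n) * (1 / ((N : ℝ) * (N + 1))))
    ((∑ n ∈ Icc 1 X, F n) / ((X : ℝ) + 1))
  rw [div_le_iff₀ hε] at h2
  nlinarith

open Classical in
/-- **Products of `k` values of the Liouville function in progression, at almost all scales.**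
There is one set `𝓔` of natural numbers of logarithmic density zero such that for every length `k`,
every difference `t`, every residue class `r` modulo `t` and every `ε > 0`, with
`P(n) = λ(n) λ(n+t) ⋯ λ(n+(k-1)t)`:
* for all large `N` outside `𝓔` the sum of `P(n)` over the `n ≤ N`, `n ≡ r (mod t)`, is at most
  `(1/2 + ε) N / t` in absolute value, and the number of these `n` with `P(n) ≠ P(n+t)` differs from
  `N / (2t)` by at most `ε N`;
* for all large `X` the logarithmic sum of `P(n) / n` over the `n ≤ X`, `n ≡ r (mod t)`, is at most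
  `(1/2 + ε) log X / t` in absolute value.
For `t = 1` the first sum is the sum `S_k(N)` of the problem. -/
theorem result : ∃ 𝓔 : Set ℕ,
    Tendsto (fun X : ℕ => (∑ N ∈ Icc 1 X, if N ∈ 𝓔 then (1 : ℝ) / N else 0) / Real.log X)
      atTop (𝓝 0) ∧
    ∀ k t r : ℕ, 1 ≤ k → 1 ≤ t → ∀ ε : ℝ, 0 < ε →
      (∃ N₀ : ℕ, ∀ N : ℕ, N₀ ≤ N → N ∉ 𝓔 →
        |∑ n ∈ (Icc 1 N).filter (fun n => n % t = r % t), (P k t n : ℝ)| ≤
          (1 / 2 + ε) * N / t ∧
        |(((Icc 1 N).filter (fun n => n % t = r % t ∧ P k t n ≠ P k t (n + t))).card : ℝ) -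
          N / (2 * t)| ≤ ε * N) ∧
      ∃ X₀ : ℕ, ∀ X : ℕ, X₀ ≤ X →
        |∑ n ∈ (Icc 1 X).filter (fun n => n % t = r % t), (P k t n : ℝ) / n| ≤
          (1 / 2 + ε) * Real.log X / t := by
  set E : (ℕ × ℕ × ℕ × ℕ) → Set ℕ := fun i =>
    {N | (1 ≤ i.1 ∧ 1 ≤ i.2.1) ∧ (1 / ((i.2.2.2 : ℝ) + 1)) * N < |T2 i.1 i.2.1 i.2.2.1 N|} with hE
  have hEZ : ∀ i, LZ (E i) := by
    intro i
    by_cases hi : 1 ≤ i.1 ∧ 1 ≤ i.2.1
    · refine LZ_sub ?_ (T2_LZ i.1 i.2.1 i.2.2.1 hi.1 hi.2 (1 / ((i.2.2.2 : ℝ) + 1)) (by positivity))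
      rintro N ⟨-, hN⟩
      exact hN
    · refine LZ_sub ?_ Pool.Agent.Y958.U.LZ_empty
      rintro N ⟨h, -⟩
      exact absurd h hi
  obtain ⟨F, hF, hdiag⟩ := diag' E hEZ
  refine ⟨F, hF, fun k t r hk ht => ?_⟩
  have ht0 : (0 : ℝ) < t := by exact_mod_cast ht
  have key : ∀ ε : ℝ, 0 < ε → ∃ N₀ : ℕ, ∀ N : ℕ, N₀ ≤ N → N ∉ F →
      |∑ n ∈ Icc 1 N, W t r n * (P k t n : ℝ)| ≤ (1 / 2 + ε) * N / t ∧
        |(((Icc 1 N).filter (fun n => n % t = r % t ∧ P k t n ≠ P k t (n + t))).card : ℝ) -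
          N / (2 * t)| ≤ ε * N := by
    intro ε hε
    obtain ⟨j, hj⟩ := exists_nat_one_div_lt (show (0 : ℝ) < ε / t by positivity)
    obtain ⟨N₀, hN₀⟩ := hdiag (k, t, r, j)
    refine ⟨N₀ + ⌈2 * t * (t + 1) / ε⌉₊, fun N hN hNF => ?_⟩
    have h1 : |T2 k t r N| ≤ (1 / ((j : ℝ) + 1)) * N := by
      by_contra hcon
      apply hNF
      exact hN₀ N ⟨⟨hk, ht⟩, not_le.1 hcon⟩ (by omega)
    have h2 : |T2 k t r N| ≤ (ε / t) * N :=
      h1.trans (mul_le_mul_of_nonneg_right hj.le (Nat.cast_nonneg _))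
    have h3 : 2 * t * (t + 1) / ε ≤ (N : ℝ) :=
      (Nat.le_ceil _).trans (Nat.cast_le.2 (by omega))
    rw [div_le_iff₀ hε] at h3
    have ht1 : (1 : ℝ) ≤ t := by exact_mod_cast ht
    have h4 : (t : ℝ) + 1 ≤ (1 / 2) * ((ε / t) * N) := by
      have : (1 / 2) * ((ε / t) * N) = (N * ε) / (2 * t) := by field_simp
      rw [this, le_div_iff₀ (by positivity)]
      linarith
    have h5 : (ε / t) * N ≤ ε * N := by
      apply mul_le_mul_of_nonneg_right _ (Nat.cast_nonneg _)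
      exact div_le_self hε.le ht1
    constructor
    · have h6 := bound_P k t r ht N
      have e1 : (1 / 2 + ε) * N / t = (1 / 2) * (N / t) + (ε / t) * N := by field_simp
      rw [e1]
      linarith
    · have h6 := change_P k t r ht N
      linarith
  have hfil : ∀ (N : ℕ) (f : ℕ → ℝ), ∑ n ∈ (Icc 1 N).filter (fun n => n % t = r % t), f n =
      ∑ n ∈ Icc 1 N, W t r n * f n := by
    intro N f
    rw [sum_filter]
    refine sum_congr rfl fun n _ => ?_
    unfold W
    split_ifs <;> simp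
  intro ε hε
  constructor
  · obtain ⟨N₀, hN₀⟩ := key ε hε
    refine ⟨N₀, fun N hN hNF => ?_⟩
    rw [hfil]
    exact hN₀ N hN hNF
  · obtain ⟨N₀, hN₀⟩ := key (ε / 2) (by positivity)
    obtain ⟨X₀, hX₀⟩ := log_avg (fun n => W t r n * (P k t n : ℝ)) (by
      intro n
      rw [abs_mul, P_abs, mul_one]
      exact W_abs t r n) ((1 / 2 + ε / 2) / t) (by positivity) F hF N₀ (by
      intro N hN hNF
      have := (hN₀ N hN hNF).1
      calc _ ≤ _ := this
        _ = _ := by ring) (ε / 2 / t) (by positivity)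
    refine ⟨X₀, fun X hX => ?_⟩
    rw [hfil]
    have h1 := hX₀ X hX
    calc |∑ n ∈ Icc 1 X, W t r n * ((P k t n : ℝ) / n)|
        = |∑ n ∈ Icc 1 X, W t r n * (P k t n : ℝ) / n| := by
          congr 1
          exact sum_congr rfl fun n _ => by rw [mul_div_assoc]
      _ ≤ _ := h1
      _ = _ := by field_simp; ring

end Pool.Agent.Results.MP_a14ce1_nt.HalfBoundAllLengths
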