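import Pool.Agent.TH893.CL.Twist
import Pool.Agent.TH823.Fam.Fam2
import Pool.Agent.Q56.TF.Near

/-!
# Products of `k` consecutive values of the Liouville function, for all the lengths `k` in windows around almost
all members of a real sequence

The lengths are all the positive integers at a distance of at most `log ^ A N` from `r m`, for almost all `m ≤ x`,
where `r 1, ..., r x` is an arbitrary family of real numbers of nearly minimal energy; for instance the (real)
values `β + κ f m` of a polynomial `f` with integer coefficients, with arbitrary real `κ ≠ 0` and `β`, or of a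
generalised polynomial `f t = ∑ a_y t ^ y` whose largest exponent is greater than `1` and not an integer
(`f t = t ^ c`: the sequences of Piatetski-Shapiro).

From Mathlib: `ArithmeticFunction.cardFactors n`: the number of the prime factors of `n` with multiplicity;
`Polynomial ℤ`, `f.eval m`: polynomials and their values; `Finset.Ioc Y X`: the integers `n` with `Y < n ≤ X`.
From the starting files: the correlations for families of integers (`Pool.Agent.TH823.Fam.fam_all`) and the pairing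
of neighbouring products (`Pool.Agent.TH893.CL.twist_le`).
-/

set_option autoImplicit false

namespace Pool.Agent.Results.MP_a14ce1_nt.LengthsNearRealSequences

open Finset

open Classical in
/-- The energy of order `p` of the family of real numbers `r 1, ..., r x`: the number of the pairs `v`, `w` of
`p`-tuples of elements of `{1, ..., x}` such that `r (v 1) + ... + r (v p)` and `r (w 1) + ... + r (w p)` differ
by at most `1`. -/
noncomputable def energy (p x : ℕ) (r : ℕ → ℝ) : ℕ :=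
  (((Fintype.piFinset fun _ : Fin p => Icc 1 x) ×ˢ (Fintype.piFinset fun _ : Fin p => Icc 1 x)).filter
    (fun q => |∑ i, r (q.1 i) - ∑ i, r (q.2 i)| ≤ 1)).card

/-- The product `λ(a n + b) λ(a (n + 1) + b) ... λ(a (n + k - 1) + b)` of the values of the Liouville function at
`k` consecutive terms of a progression. For `a = 1` and `b = 0` it is `λ(n) λ(n + 1) ... λ(n + k - 1)`. -/
noncomputable def prodL (a b k n : ℕ) : ℝ := ∏ j ∈ range k, (-1 : ℝ) ^ ArithmeticFunction.cardFactors (a * (n + j) + b)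

/-- The length `k` is good for the weights `ξ l`: on every interval `(Y, X]` with `X ≤ B N` the sums of the products
of `k` consecutive values with the weights `ξ l` are at most half of the length of the interval, up to
`N / log ^ U N`. For `ξ l = 1`, `a = 1`, `b = 0` and `Y = 0` the sum is `S_k(X)`. -/
def Half (a b B U N : ℕ) {L : ℕ} (ξ : Fin L → ℕ → ℂ) (k : ℕ) : Prop :=
  ∀ l, ∀ Y X : ℕ, Y ≤ X → X ≤ B * N →
    ‖∑ n ∈ Ioc Y X, ξ l n * (prodL a b k n : ℂ)‖ ≤ ((X : ℝ) - Y) / 2 + N / Real.log N ^ U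

open Classical in
/-- The number of the `m` in `{1, ..., x}` for which not all positive integers `k` at a distance of at most `w`
from `r m` have the property `G`. -/
noncomputable def exceptions (x : ℕ) (r : ℕ → ℝ) (w : ℝ) (G : ℕ → Prop) : ℕ :=
  ((Icc 1 x).filter (fun m => ∃ k : ℕ, 0 < k ∧ |(k : ℝ) - r m| ≤ w ∧ ¬ G k)).card

/-- The bound at scale `N` for the windows around the `r m`, `m ≤ x`: for every `b ≤ B N` and any `L ≤ log ^ T N`
systems of weights bounded by `1`, for all `m ≤ x` with at most `x / log ^ U N` exceptions all positive integers `k`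
with `|k - r m| ≤ log ^ A N` are good lengths. -/
def Holds (a A B T U N x : ℕ) (r : ℕ → ℝ) : Prop :=
  ∀ b ≤ B * N, ∀ L : ℕ, (L : ℝ) ≤ Real.log N ^ T → ∀ ξ : Fin L → ℕ → ℂ, (∀ l n, ‖ξ l n‖ ≤ 1) →
    (exceptions x r (Real.log N ^ A) (Half a b B U N ξ) : ℝ) ≤ x / Real.log N ^ U

/-- The sequence `f`, of growth `x ^ c`, has the property at all large scales: for all `x` with
`N / log ^ C N ≤ x ^ c ≤ B N` and all translates `β + f m`, `|β| ≤ B N`. -/
def Sequence (a A B C T U : ℕ) (f : ℕ → ℝ) (c : ℝ) : Prop :=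
  ∃ N₀ : ℕ, ∀ N : ℕ, N₀ ≤ N → ∀ x : ℕ, (x : ℝ) ^ c ≤ B * N → (N : ℝ) ≤ Real.log N ^ C * (x : ℝ) ^ c →
    ∀ β : ℝ, |β| ≤ B * N → Holds a A B T U N x (fun m => β + f m)

/-- the Liouville function along a progression -/
noncomputable def lr (a b n : ℕ) : ℝ := (-1 : ℝ) ^ ArithmeticFunction.cardFactors (a * n + b)

lemma lr_pm (a b n : ℕ) : lr a b n = 1 ∨ lr a b n = -1 := neg_one_pow_eq_or ℝ _

lemma prodL_eq (a b k n : ℕ) : prodL a b k n = Pool.Agent.TH893.CL.Pk (lr a b) k n := rfl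

lemma sum_Ioc_sub {E : Type*} [AddCommGroup E] (f : ℕ → E) {Y X : ℕ} (h : Y ≤ X) :
    ∑ n ∈ Ioc Y X, f n = ∑ n ∈ Icc 1 X, f n - ∑ n ∈ Icc 1 Y, f n := by
  have h1 : ∀ Z : ℕ, Icc 1 Z = Ioc 0 Z := by intro Z; ext n; simp only [mem_Icc, mem_Ioc]; omega
  rw [h1, h1, ← sum_Ioc_consecutive f (Nat.zero_le Y) h]
  abel

/-- the four weights of the pairing -/
noncomputable def four (a b : ℕ) (ξ : ℕ → ℂ) (i : Fin 4) (n : ℕ) : ℝ :=
  (if i.1 < 2 then (ξ n).re else (ξ n).im) * (if i.1 % 2 = 0 then (ξ (n + 1)).re else (ξ (n + 1)).im) * lr a b n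

lemma four_abs (a b : ℕ) (ξ : ℕ → ℂ) (hξ : ∀ n, ‖ξ n‖ ≤ 1) (i : Fin 4) (n : ℕ) : |four a b ξ i n| ≤ 1 := by
  have hre : ∀ n, |(ξ n).re| ≤ 1 := fun n => (Complex.abs_re_le_norm _).trans (hξ n)
  have him : ∀ n, |(ξ n).im| ≤ 1 := fun n => (Complex.abs_im_le_norm _).trans (hξ n)
  have hl := Pool.Agent.TH893.CL.l_abs (lr_pm a b) n
  unfold four
  rw [abs_mul, abs_mul, hl, mul_one]
  apply mul_le_one₀ _ (abs_nonneg _)
  · split_ifs
    · exact hre _
    · exact him _
  · split_ifs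
    · exact hre _
    · exact him _

lemma half_of (a b k : ℕ) (ξ : ℕ → ℂ) (hξ : ∀ n, ‖ξ n‖ ≤ 1) {Y X : ℕ} (hYX : Y ≤ X) {M : ℝ}
    (h : ∀ i : Fin 4, |∑ n ∈ Ioc Y X, four a b ξ i n * lr a b (n + k)| ≤ M) :
    ‖∑ n ∈ Ioc Y X, ξ n * (prodL a b k n : ℂ)‖ ≤ ((X : ℝ) - Y) / 2 + 2 * M + 1 := by
  refine Pool.Agent.TH893.CL.twist_le (l := lr a b) (lr_pm a b) k hξ hYX ?_ ?_ ?_ ?_
  · simpa [four] using h 0
  · simpa [four] using h 1
  · simpa [four] using h 2
  · simpa [four] using h 3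

open Pool.Agent.H373R2.T7 in
/-- families of lengths -/
lemma general (a p B C T U : ℕ) (ha : 1 ≤ a) : ∃ N₀ : ℕ, ∀ N : ℕ, N₀ ≤ N → ∀ b ≤ B * N,
    ∀ (x : ℕ) (s : ℕ → ℤ), (∀ m ∈ Icc 1 x, |s m| ≤ B * N) →
    (Pool.Agent.H373R2.T7.energy p x s : ℝ) * N ≤ Real.log N ^ C * (x : ℝ) ^ (2 * p) →
    ∀ L : ℕ, (L : ℝ) ≤ Real.log N ^ T → ∀ ξ : Fin L → ℕ → ℂ, (∀ l n, ‖ξ l n‖ ≤ 1) →
    ∀ S : Finset ℕ, S ⊆ Icc 1 x → (∀ m ∈ S, 0 < s m ∧ ¬ Half a b B U N ξ (s m).toNat) →
      (S.card : ℝ) ≤ x / Real.log N ^ U := by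
  classical
  obtain ⟨N₀, h0⟩ := Pool.Agent.TH823.Fam.fam_all liR liR_norm sup_liou p ((2 * a + 2) * (B + 1)) C (T + U + 2) (T + U + 2)
  obtain ⟨N₁, h1⟩ := Pool.Agent.TH823.Fam.log_pow_small U
  obtain ⟨N₂, h2⟩ := ev_L' 16
  refine ⟨N₀ + N₁ + N₂ + 3, fun N hN b hb x s hs hE L hL ξ hξ S hS hSb => ?_⟩
  have hlog16 := h2 N (by omega)
  have hsm := h1 N (by omega)
  have hN0 : (0 : ℝ) < N := by exact_mod_cast (by omega : 0 < N)
  obtain ⟨W, hW⟩ : ∃ W, W = Real.log (N : ℝ) := ⟨_, rfl⟩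
  unfold Half at hSb
  rw [← hW] at hlog16 hsm hE hL hSb ⊢
  have hW16 : 16 ≤ W := by linarith
  have hW0 : 0 < W := by linarith
  have hW1 : 1 ≤ W := by linarith
  have hL4 : ((4 * L : ℕ) : ℝ) ≤ W ^ (T + U + 2) := by
    push_cast
    calc 4 * (L : ℝ) ≤ W * W ^ T := by
          apply mul_le_mul (by linarith) hL (Nat.cast_nonneg _) (by linarith)
      _ = W ^ (T + 1) := by rw [pow_succ]; ring
      _ ≤ W ^ (T + U + 2) := pow_le_pow_right₀ hW1 (by omega)
  have hEs : (Pool.Agent.H373R2.T7.energy p x (fun m => (b : ℤ) + (a : ℤ) * s m) : ℝ) * N ≤ W ^ C * (x : ℝ) ^ (2 * p) := by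
    have e1 : Pool.Agent.H373R2.T7.energy p x (fun m => (b : ℤ) + (a : ℤ) * s m) = Pool.Agent.H373R2.T7.energy p x s := by
      rw [Pool.Agent.TH823.Fam.energy_translate]
      unfold Pool.Agent.H373R2.T7.energy
      congr 1
      apply filter_congr
      intro q _
      have h0 : (a : ℤ) ≠ 0 := by exact_mod_cast (by omega : a ≠ 0)
      rw [← mul_sum, ← mul_sum, mul_right_inj' h0]
    rw [e1]
    exact hE
  have key := h0 N (by omega) x (fun m => (b : ℤ) + (a : ℤ) * s m) (by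
    intro m hm
    have h3 := hs m hm
    have h4 : ((b : ℕ) : ℤ) ≤ B * N := by exact_mod_cast hb
    rw [abs_le] at h3 ⊢
    have hb0 : (0 : ℤ) ≤ b := Nat.cast_nonneg _
    have ha0 : (0 : ℤ) ≤ a := Nat.cast_nonneg _
    have hBN : (0 : ℤ) ≤ B * N := by positivity
    have e1 : (a : ℤ) * s m ≤ a * (B * N) := mul_le_mul_of_nonneg_left h3.2 ha0
    have e2 : (a : ℤ) * (-(B * N)) ≤ a * s m := mul_le_mul_of_nonneg_left h3.1 ha0
    have e3 : (0 : ℤ) ≤ a * (B * N) := by positivity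
    have e4 : (0 : ℤ) ≤ a * N := by positivity
    push_cast
    constructor <;> nlinarith) (by rw [← hW]; exact hEs) (4 * L) (by rw [← hW]; exact hL4) (fun _ => a)
    (fun q n => if h : q < 4 * L then ((four a b (ξ ⟨q / 4, by omega⟩) ⟨q % 4, Nat.mod_lt _ (by norm_num)⟩ n : ℝ) : ℂ)
      else 0) (fun _ _ => ha) (by
      intro q hq n _ _
      simp only [hq, dif_pos]
      rw [Complex.norm_real, ← hW]
      exact (four_abs a b _ (hξ _) _ n).trans (one_le_pow₀ hW1)) (fun m => m ∈ S) (by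
      intro m hm hmS
      obtain ⟨hs0, h3⟩ := hSb m hmS
      push Not at h3
      obtain ⟨l, Y, X, hYX, hX, h4⟩ := h3
      by_contra hcon
      push Not at hcon
      have hkey : ∀ (i : Fin 4) (Z : ℕ), Z ≤ B * N →
          ‖∑ n ∈ Icc 1 Z, ((four a b (ξ l) i n * lr a b (n + (s m).toNat) : ℝ) : ℂ)‖ ≤ N / W ^ (T + U + 2) := by
        intro i Z hZ
        have h5 := hcon (4 * l.1 + i.1) (by omega) Z (by nlinarith)
        rw [← hW] at h5
        refine le_trans (le_of_eq ?_) h5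
        congr 1
        apply sum_congr rfl
        intro n hn
        have hn1 := (mem_Icc.1 hn).1
        have e1 : (4 * l.1 + i.1) / 4 = l.1 := by omega
        have e2 : (4 * l.1 + i.1) % 4 = i.1 := by omega
        simp only [show 4 * l.1 + i.1 < 4 * L by omega, dif_pos, e1, e2]
        have e3 : exI liR (((a * n : ℕ) : ℤ) + ((b : ℤ) + (a : ℤ) * s m)) = ((lr a b (n + (s m).toNat) : ℝ) : ℂ) := by
          obtain ⟨k, hk⟩ : ∃ k : ℕ, s m = k := ⟨(s m).toNat, (Int.toNat_of_nonneg hs0.le).symm⟩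
          rw [hk, Int.toNat_natCast]
          unfold exI liR lr
          have e4 : ((a * n : ℕ) : ℤ) + ((b : ℤ) + (a : ℤ) * (k : ℤ)) = ((a * (n + k) + b : ℕ) : ℤ) := by
            push_cast
            ring
          rw [e4, Int.toNat_natCast, if_pos (by
            have : 1 ≤ a * (n + k) + b := by nlinarith
            exact_mod_cast this)]
          push_cast
          rfl
        rw [e3]
        push_cast
        rfl
      have h6 : ∀ i : Fin 4, |∑ n ∈ Ioc Y X, four a b (ξ l) i n * lr a b (n + (s m).toNat)| ≤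
          2 * (N / W ^ (T + U + 2)) := by
        intro i
        have h7 : ‖∑ n ∈ Ioc Y X, ((four a b (ξ l) i n * lr a b (n + (s m).toNat) : ℝ) : ℂ)‖ ≤
            2 * (N / W ^ (T + U + 2)) := by
          rw [sum_Ioc_sub _ hYX]
          refine (norm_sub_le _ _).trans ?_
          have := hkey i X hX
          have := hkey i Y (hYX.trans hX)
          linarith
        rw [← Complex.ofReal_sum, Complex.norm_real, Real.norm_eq_abs] at h7
        exact h7
      have h8 := half_of a b (s m).toNat (ξ l) (hξ l) hYX h6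
      have h9 : 2 * (2 * (N / W ^ (T + U + 2))) + 1 ≤ N / W ^ U := by
        have hc : 0 ≤ (N : ℝ) / W ^ U := by positivity
        have h10 : (N : ℝ) / W ^ (T + U + 2) ≤ (N / W ^ U) / 16 := by
          rw [show T + U + 2 = U + (T + 2) by ring, pow_add, ← div_div]
          apply div_le_div_of_nonneg_left hc (by norm_num)
          calc (16 : ℝ) ≤ W := hW16
            _ = W ^ 1 := (pow_one _).symm
            _ ≤ W ^ (T + 2) := pow_le_pow_right₀ hW1 (by omega)
        have h11 : 4 ≤ (N : ℝ) / W ^ U := by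
          rw [le_div_iff₀ (by positivity)]
          exact hsm
        linarith
      linarith)
  have h4 : (Icc 1 x).filter (fun m => m ∈ S) = S := by
    ext m
    rw [mem_filter]
    exact ⟨fun h => h.2, fun h => ⟨hS h, h⟩⟩
  rw [h4, ← hW] at key
  refine key.trans ?_
  apply div_le_div_of_nonneg_left (Nat.cast_nonneg _) (by positivity)
  exact pow_le_pow_right₀ hW1 (by omega)

lemma holds_of (a A B B' T U p C' : ℕ) (ha : 1 ≤ a) (hBB : B ≤ B') : ∃ N₀ : ℕ, ∀ N : ℕ, N₀ ≤ N →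
    ∀ (x : ℕ) (r : ℕ → ℝ), Pool.Agent.Q56.TF.Near A p B' C' N x r → Holds a A B T U N x r := by
  classical
  obtain ⟨N₁, h1⟩ := general a p B' C' T U ha
  refine ⟨N₁, fun N hN x r hm b hb L hL ξ hξ => ?_⟩
  refine hm.count (fun k => 0 < k ∧ ¬ Half a b B U N ξ k.toNat) _ (fun s hs hE S hS hSb => ?_) _ (filter_subset _ _) ?_
  · refine h1 N hN b (hb.trans (Nat.mul_le_mul_right _ hBB)) x s hs hE L hL ξ hξ S hS fun m hm => ?_
    obtain ⟨h3, h4⟩ := hSb m hm
    exact ⟨h3, fun h5 => h4 fun l Y X hYX hX => h5 l Y X hYX (hX.trans (Nat.mul_le_mul_right _ hBB))⟩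
  · intro m hm
    obtain ⟨_, k, hk1, hk2, hk3⟩ := mem_filter.1 hm
    exact ⟨k, by exact_mod_cast hk2, by exact_mod_cast hk1, by simpa using hk3⟩

lemma sequence_of {f : ℕ → ℝ} {c : ℝ} (h : Pool.Agent.Q56.TF.Base f c) (hc : 1 ≤ c) (a A B C T U : ℕ) (ha : 1 ≤ a) :
    Sequence a A B C T U f c := by
  obtain ⟨p, B', C', N₀, h1⟩ := Pool.Agent.Q56.TF.near_base h hc A B C
  obtain ⟨N₁, h2⟩ := holds_of a A B (B + B') T U p C' ha (by omega)
  exact ⟨N₀ + N₁, fun N hN x hx1 hx2 β hβ => h2 N (by omega) x _ ((h1 N (by omega) x hx1 hx2 β hβ).mono (by omega))⟩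

/-- Let `a ≥ 1`, `A`, `B`, `C`, `T`, `U` be fixed.

* For every `p` the following holds for all large `N`. Let `r 1, ..., r x` be an arbitrary family of real numbers in
  `[-B N, B N]` with an energy of order `p` of at most `log ^ C N` times `x ^ (2 p) / N` (the minimal possible order
  of magnitude). Let `b ≤ B N` and let at most `log ^ T N` systems of weights `ξ l` with `|ξ l n| ≤ 1` be given. For
  all `m ≤ x` with at most `x / log ^ U N` exceptions, ALL positive integers `k` with `|k - r m| ≤ log ^ A N`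
  satisfy: `|∑_{Y < n ≤ X} ξ l n · λ(a n + b) λ(a (n + 1) + b) ... λ(a (n + k - 1) + b)|` is at most
  `(X - Y) / 2 + N / log ^ U N`, for all `l` and all `Y ≤ X ≤ B N`. In particular `|S_k(X)| ≤ X / 2 + N / log ^ U N`.
* This holds for `r m = β + κ f m`, `m ≤ x`, where `f` is a fixed nonconstant polynomial with integer
  coefficients, of degree `d`, `κ ≠ 0` is a fixed real number, `β` is any real number with `|β| ≤ B N`, and
  `N / log ^ C N ≤ x ^ d ≤ B N`.
* This holds for `r m = β + ∑ c_y m ^ y` (a sum over a finite set `F` of real exponents `y`), if the largest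
  exponent `c` is greater than `1` and not an integer, its coefficient is not zero, `|β| ≤ B N` and
  `N / log ^ C N ≤ x ^ c ≤ B N`; for instance for `r m = β + m ^ c`. -/
theorem result (a A B C T U : ℕ) (ha : 1 ≤ a) :
    (∀ p : ℕ, ∃ N₀ : ℕ, ∀ N : ℕ, N₀ ≤ N → ∀ (x : ℕ) (r : ℕ → ℝ), (∀ m ∈ Icc 1 x, |r m| ≤ B * N) →
      (energy p x r : ℝ) * N ≤ Real.log N ^ C * (x : ℝ) ^ (2 * p) → Holds a A B T U N x r) ∧
    (∀ f : Polynomial ℤ, 1 ≤ f.natDegree → ∀ κ : ℝ, κ ≠ 0 →
      Sequence a A B C T U (fun m => κ * ((f.eval (m : ℤ) : ℤ) : ℝ)) f.natDegree) ∧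
    (∀ (F : Finset ℝ) (w : ℝ → ℝ) (c : ℝ), c ∈ F → (∀ y ∈ F, y ≤ c) → w c ≠ 0 → 1 < c → (∀ k : ℕ, c ≠ k) →
      Sequence a A B C T U (fun m => ∑ y ∈ F, w y * (m : ℝ) ^ y) c) := by
  classical
  refine ⟨fun p => ?_, fun f hd κ hκ => ?_, fun F w c hcF hmax hac hc hcn => ?_⟩
  · obtain ⟨B', C', N₀, h1⟩ := Pool.Agent.Q56.TF.near_gen p A B C
    obtain ⟨N₁, h2⟩ := holds_of a A B (B + B') T U p C' ha (by omega)
    exact ⟨N₀ + N₁, fun N hN x r hr hE => h2 N (by omega) x _ ((h1 N (by omega) x r hr hE).mono (by omega))⟩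
  · exact sequence_of ((Pool.Agent.Q56.TF.base_poly f hd).dil hκ) (by exact_mod_cast hd) a A B C T U ha
  · exact sequence_of (Pool.Agent.Q56.TF.base_gp F w c hcF hmax hac hc hcn) hc.le a A B C T U ha

end Pool.Agent.Results.MP_a14ce1_nt.LengthsNearRealSequences
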