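import Pool.Agent.TH893.CL.Black

/-!
# Products of `m` of `H` consecutive values of the Liouville function: almost all choices, every `m < H`, every scale

Let `ε > 0`, `a ≥ 1`, `H ≥ H₀(ε, a)` (for example `H` fixed) and let `N ≥ max(N₀, H)`. For every `1 ≤ m < H` all but a proportion `ε`
of the `m`-element sets `S ⊆ {1, ..., H}` satisfy `|∑_{Y < n ≤ X} ξ(n) ∏_{i ∈ S} λ(a (n + i) + b)| ≤ ε N` on all the intervals
`(Y, X]` with `X ≤ 2 N`, for arbitrary weights `|ξ| ≤ 1` and `b ≤ N`. In the case `m = H - 1` the products are the products of `H`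
consecutive values with one value omitted. Input: the averaged Chowla theorem of Matomaki, Radziwill and Tao in the form of
`Pool.Agent.TH893.CL.plus_minus`.
-/

set_option autoImplicit false

namespace Pool.Agent.Results.MP_a14ce1_nt.SubsetsOfWindows

open Finset

/-- the Liouville function -/
noncomputable def lam (n : ℕ) : ℝ := (-1 : ℝ) ^ ArithmeticFunction.cardFactors n

/-- The set `S` is good: on every interval `(Y, X]` with `X ≤ 2 N` the sum of `ξ(n)` times the product of the values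
`λ(a (n + i) + b)`, `i ∈ S`, is at most `ε N`. -/
def Good (a b N : ℕ) (ε : ℝ) (ξ : ℕ → ℝ) (S : Finset ℕ) : Prop :=
  ∀ Y X : ℕ, Y ≤ X → X ≤ 2 * N → |∑ n ∈ Ioc Y X, ξ n * ∏ i ∈ S, lam (a * (n + i) + b)| ≤ ε * N

lemma lam_sq (n : ℕ) : lam n * lam n = 1 := by
  unfold lam
  rw [← mul_pow]
  simp

lemma lam_abs (n : ℕ) : |lam n| = 1 := by
  unfold lam
  rw [abs_pow]
  simp

lemma prod_abs (a b : ℕ) (S : Finset ℕ) (n : ℕ) : |∏ i ∈ S, lam (a * (n + i) + b)| ≤ 1 := by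
  rw [abs_prod]
  exact prod_le_one (fun _ _ => abs_nonneg _) (fun i _ => (lam_abs _).le)

/-- double counting of the pairs of a set and one of its elements -/
lemma double (F : Finset ℕ) (j : ℕ) (f : Finset ℕ → ℝ) :
    ((j : ℝ) + 1) * ∑ S ∈ F.powersetCard (j + 1), f S = ∑ T ∈ F.powersetCard j, ∑ L ∈ F \ T, f (insert L T) := by
  have e1 : ((j : ℝ) + 1) * ∑ S ∈ F.powersetCard (j + 1), f S = ∑ S ∈ F.powersetCard (j + 1), ∑ _L ∈ S, f S := by
    rw [mul_sum]
    apply sum_congr rfl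
    intro S hS
    rw [sum_const, (mem_powersetCard.1 hS).2, nsmul_eq_mul]
    push_cast
    ring
  rw [e1, sum_sigma', sum_sigma']
  refine sum_bij' (fun x _ => ⟨x.1.erase x.2, x.2⟩) (fun y _ => ⟨insert y.2 y.1, y.2⟩) ?_ ?_ ?_ ?_ ?_
  · rintro ⟨S, L⟩ h
    rw [mem_sigma, mem_powersetCard] at h ⊢
    obtain ⟨⟨h1, h2⟩, h3⟩ := h
    refine ⟨⟨(erase_subset _ _).trans h1, ?_⟩, ?_⟩
    · rw [card_erase_of_mem h3, h2]
      rfl
    · exact mem_sdiff.2 ⟨h1 h3, by simp⟩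
  · rintro ⟨T, L⟩ h
    rw [mem_sigma, mem_powersetCard] at h ⊢
    obtain ⟨⟨h1, h2⟩, h3⟩ := h
    rw [mem_sdiff] at h3
    refine ⟨⟨insert_subset h3.1 h1, ?_⟩, mem_insert_self _ _⟩
    rw [card_insert_of_notMem h3.2, h2]
  · rintro ⟨S, L⟩ h
    rw [mem_sigma] at h
    simp only [insert_erase h.2]
  · rintro ⟨T, L⟩ h
    rw [mem_sigma, mem_sdiff] at h
    simp only [erase_insert h.2.2]
  · rintro ⟨S, L⟩ h
    rw [mem_sigma] at h
    simp only [insert_erase h.2]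

/-- double counting of the pairs of a set and one of the other elements -/
lemma double' (F : Finset ℕ) (j : ℕ) (hj : j ≤ F.card) (f : Finset ℕ → ℝ) :
    ((F.card : ℝ) - j) * ∑ S ∈ F.powersetCard j, f S = ∑ T ∈ F.powersetCard (j + 1), ∑ L ∈ T, f (T.erase L) := by
  have e1 : ((F.card : ℝ) - j) * ∑ S ∈ F.powersetCard j, f S = ∑ S ∈ F.powersetCard j, ∑ _L ∈ F \ S, f S := by
    rw [mul_sum]
    apply sum_congr rfl
    intro S hS
    obtain ⟨h1, h2⟩ := mem_powersetCard.1 hS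
    rw [sum_const, card_sdiff_of_subset h1, h2, nsmul_eq_mul, Nat.cast_sub hj]
  rw [e1, sum_sigma', sum_sigma']
  refine sum_bij' (fun x _ => ⟨insert x.2 x.1, x.2⟩) (fun y _ => ⟨y.1.erase y.2, y.2⟩) ?_ ?_ ?_ ?_ ?_
  · rintro ⟨T, L⟩ h
    rw [mem_sigma, mem_powersetCard] at h ⊢
    obtain ⟨⟨h1, h2⟩, h3⟩ := h
    rw [mem_sdiff] at h3
    refine ⟨⟨insert_subset h3.1 h1, ?_⟩, mem_insert_self _ _⟩
    rw [card_insert_of_notMem h3.2, h2]
  · rintro ⟨S, L⟩ h
    rw [mem_sigma, mem_powersetCard] at h ⊢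
    obtain ⟨⟨h1, h2⟩, h3⟩ := h
    refine ⟨⟨(erase_subset _ _).trans h1, ?_⟩, ?_⟩
    · rw [card_erase_of_mem h3, h2]
      rfl
    · exact mem_sdiff.2 ⟨h1 h3, by simp⟩
  · rintro ⟨T, L⟩ h
    rw [mem_sigma, mem_sdiff] at h
    simp only [erase_insert h.2.2]
  · rintro ⟨S, L⟩ h
    rw [mem_sigma] at h
    simp only [insert_erase h.2]
  · rintro ⟨T, L⟩ h
    rw [mem_sigma, mem_sdiff] at h
    simp only [erase_insert h.2.2]

open Classical in
/-- **Theorem.** Let `a ≥ 1` and `ε > 0`. There are `H₀` and `N₀` such that for all `N ≥ N₀` and `H₀ ≤ H ≤ N` (so `H` may be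
fixed), all `b ≤ N`, all weights `ξ : ℕ → ℝ` bounded by `1` and every `1 ≤ m < H`: of the `C(H, m)` sets `S` of `m` elements of
`{1, ..., H}` all but at most `ε C(H, m)` are good, that is
`|∑_{Y < n ≤ X} ξ(n) ∏_{i ∈ S} λ(a (n + i) + b)| ≤ ε N` for all `Y ≤ X ≤ 2 N`. -/
theorem result (a : ℕ) (ha : 1 ≤ a) (ε : ℝ) (hε : 0 < ε) : ∃ H₀ N₀ : ℕ, ∀ N H : ℕ, N₀ ≤ N → H₀ ≤ H → H ≤ N →
    ∀ b : ℕ, b ≤ N → ∀ ξ : ℕ → ℝ, (∀ n, |ξ n| ≤ 1) → ∀ m : ℕ, 1 ≤ m → m < H →
      ((((Icc 1 H).powersetCard m).filter (fun S => ¬ Good a b N ε ξ S)).card : ℝ) ≤ ε * H.choose m := by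
  have hη : 0 < ε / 2 := by positivity
  obtain ⟨H₀, N₀, h⟩ := Pool.Agent.TH893.CL.plus_minus ha hη
  refine ⟨max H₀ 1, N₀, fun N H hN hH hHN b hb ξ hξ m hm hmH => ?_⟩
  have hP := (h N H hN ((le_max_left _ _).trans hH) hHN b hb).1
  have hH1 : 1 ≤ H := (le_max_right _ _).trans hH
  set F := Icc 1 H with hF
  have hFc : F.card = H := by rw [hF, Nat.card_Icc]; omega
  set f : Finset ℕ → ℝ := fun S => if Good a b N (ε / 2) ξ S then 0 else 1 with hf
  have hf0 : ∀ S, 0 ≤ f S := by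
    intro S
    simp only [hf]
    split_ifs <;> norm_num
  -- the input
  have key : ∀ T ⊆ F, ∑ i ∈ F, f (if i ∈ T then T.erase i else insert i T) ≤ ε / 2 * H := by
    intro T _
    have h1 := hP (fun n => ξ n * ∏ i ∈ T, lam (a * (n + i) + b)) (fun n => by
      rw [abs_mul]
      exact mul_le_one₀ (hξ n) (abs_nonneg _) (prod_abs a b T n))
    refine le_trans (le_of_eq ?_) h1
    unfold Pool.Agent.TH893.CL.num
    rw [card_filter]
    push_cast
    apply sum_congr rfl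
    intro i _
    have e1 : ∀ n : ℕ, (ξ n * ∏ j ∈ T, lam (a * (n + j) + b)) * Pool.Agent.TH893.CL.lr a b (n + i) =
        ξ n * ∏ j ∈ (if i ∈ T then T.erase i else insert i T), lam (a * (n + j) + b) := by
      intro n
      have e2 : Pool.Agent.TH893.CL.lr a b (n + i) = lam (a * (n + i) + b) := rfl
      rw [e2]
      by_cases hi : i ∈ T
      · rw [if_pos hi, ← mul_prod_erase T (fun j => lam (a * (n + j) + b)) hi]
        have := lam_sq (a * (n + i) + b)
        calc ξ n * (lam (a * (n + i) + b) * ∏ j ∈ T.erase i, lam (a * (n + j) + b)) * lam (a * (n + i) + b)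
            = (lam (a * (n + i) + b) * lam (a * (n + i) + b)) * (ξ n * ∏ j ∈ T.erase i, lam (a * (n + j) + b)) := by ring
          _ = _ := by rw [this, one_mul]
      · rw [if_neg hi, prod_insert hi]
        ring
    simp only [hf]
    have e3 : (∀ Y X : ℕ, Y ≤ X → X ≤ 2 * N →
        |∑ n ∈ Ioc Y X, (ξ n * ∏ j ∈ T, lam (a * (n + j) + b)) * Pool.Agent.TH893.CL.lr a b (n + i)| ≤ ε / 2 * N) ↔
        Good a b N (ε / 2) ξ (if i ∈ T then T.erase i else insert i T) := by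
      unfold Good
      simp only [e1]
    by_cases hg : Good a b N (ε / 2) ξ (if i ∈ T then T.erase i else insert i T)
    · rw [if_pos hg, if_neg (not_not.2 (e3.2 hg))]
    · rw [if_neg hg, if_pos (fun hcon => hg (e3.1 hcon))]
  have hup : ∀ T ⊆ F, ∑ i ∈ F \ T, f (insert i T) ≤ ε / 2 * H := by
    intro T hT
    refine le_trans ?_ (key T hT)
    refine le_trans (le_of_eq (sum_congr rfl fun i hi => ?_))
      (sum_le_sum_of_subset_of_nonneg (sdiff_subset : F \ T ⊆ F) (fun _ _ _ => hf0 _))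
    rw [if_neg (mem_sdiff.1 hi).2]
  have hdn : ∀ T ⊆ F, ∑ i ∈ T, f (T.erase i) ≤ ε / 2 * H := by
    intro T hT
    refine le_trans ?_ (key T hT)
    refine le_trans (le_of_eq (sum_congr rfl fun i hi => ?_))
      (sum_le_sum_of_subset_of_nonneg hT (fun _ _ _ => hf0 _))
    rw [if_pos hi]
  have hHr : (1 : ℝ) ≤ H := by exact_mod_cast hH1
  have hmHr : (m : ℝ) + 1 ≤ H := by exact_mod_cast hmH
  have hmr : (1 : ℝ) ≤ m := by exact_mod_cast hm
  have hC : (0 : ℝ) ≤ H.choose m := Nat.cast_nonneg _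
  -- the two bounds
  have b1 : ((H : ℝ) - m + 1) * ∑ S ∈ F.powersetCard m, f S ≤ ε / 2 * H * H.choose m := by
    obtain ⟨j, rfl⟩ : ∃ j, m = j + 1 := ⟨m - 1, by omega⟩
    have h1 := double F j f
    have h2 : ∑ T ∈ F.powersetCard j, ∑ L ∈ F \ T, f (insert L T) ≤ (H.choose j : ℝ) * (ε / 2 * H) := by
      refine (sum_le_sum fun T hT => hup T (mem_powersetCard.1 hT).1).trans (le_of_eq ?_)
      rw [sum_const, card_powersetCard, nsmul_eq_mul, hFc]
    have h3 : ((H.choose (j + 1) : ℕ) : ℝ) * (j + 1) = (H.choose j : ℝ) * ((H : ℝ) - j) := by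
      have h4 := Nat.choose_succ_right_eq H j
      have h5 : ((H - j : ℕ) : ℝ) = (H : ℝ) - j := by rw [Nat.cast_sub (by omega)]
      rw [← h5]
      exact_mod_cast h4
    have h7 : (0 : ℝ) < (j : ℝ) + 1 := by positivity
    have h8 : (0 : ℝ) ≤ (H : ℝ) - j := by
      push_cast at hmHr
      linarith
    have h9 := mul_le_mul_of_nonneg_right (h1.le.trans h2) h8
    have e10 : ((H : ℝ) - ((j + 1 : ℕ) : ℝ) + 1) = (H : ℝ) - j := by push_cast; ring
    rw [e10]
    have e11 : (H.choose j : ℝ) * (ε / 2 * H) * ((H : ℝ) - j) = (j + 1) * (ε / 2 * H * ((H.choose (j + 1) : ℕ) : ℝ)) := by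
      calc (H.choose j : ℝ) * (ε / 2 * H) * ((H : ℝ) - j) = (ε / 2 * H) * ((H.choose j : ℝ) * ((H : ℝ) - j)) := by ring
        _ = _ := by rw [← h3]; ring
    rw [e11] at h9
    have h12 : ((j : ℝ) + 1) * (((H : ℝ) - j) * ∑ S ∈ F.powersetCard (j + 1), f S) ≤
        ((j : ℝ) + 1) * (ε / 2 * H * ((H.choose (j + 1) : ℕ) : ℝ)) := by linarith
    exact le_of_mul_le_mul_left h12 h7
  have b2 : ((m : ℝ) + 1) * ∑ S ∈ F.powersetCard m, f S ≤ ε / 2 * H * H.choose m := by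
    have h1 := double' F m (by rw [hFc]; omega) f
    have h2 : ∑ T ∈ F.powersetCard (m + 1), ∑ L ∈ T, f (T.erase L) ≤ (H.choose (m + 1) : ℝ) * (ε / 2 * H) := by
      refine (sum_le_sum fun T hT => hdn T (mem_powersetCard.1 hT).1).trans (le_of_eq ?_)
      rw [sum_const, card_powersetCard, nsmul_eq_mul, hFc]
    rw [hFc] at h1
    have h3 : ((H.choose (m + 1) : ℕ) : ℝ) * (m + 1) = (H.choose m : ℝ) * ((H : ℝ) - m) := by
      have h4 := Nat.choose_succ_right_eq H m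
      have h5 : ((H - m : ℕ) : ℝ) = (H : ℝ) - m := by rw [Nat.cast_sub (by omega)]
      rw [← h5]
      exact_mod_cast h4
    have h7 : (0 : ℝ) < (H : ℝ) - m := by linarith
    have h9 := mul_le_mul_of_nonneg_right (h1.le.trans h2) (by positivity : (0 : ℝ) ≤ (m : ℝ) + 1)
    have e11 : (H.choose (m + 1) : ℝ) * (ε / 2 * H) * ((m : ℝ) + 1) = ((H : ℝ) - m) * (ε / 2 * H * (H.choose m : ℝ)) := by
      calc (H.choose (m + 1) : ℝ) * (ε / 2 * H) * ((m : ℝ) + 1) = (ε / 2 * H) * ((H.choose (m + 1) : ℝ) * (m + 1)) := by ring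
        _ = _ := by rw [h3]; ring
    rw [e11] at h9
    have h12 : ((H : ℝ) - m) * (((m : ℝ) + 1) * ∑ S ∈ F.powersetCard m, f S) ≤
        ((H : ℝ) - m) * (ε / 2 * H * (H.choose m : ℝ)) := by linarith
    exact le_of_mul_le_mul_left h12 h7
  have hsum : ∑ S ∈ F.powersetCard m, f S ≤ ε * H.choose m := by
    have hs0 : 0 ≤ ∑ S ∈ F.powersetCard m, f S := sum_nonneg (fun _ _ => hf0 _)
    have h1 : (H : ℝ) * ∑ S ∈ F.powersetCard m, f S ≤ H * (ε * H.choose m) := by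
      nlinarith
    exact le_of_mul_le_mul_left h1 (by linarith)
  refine le_trans ?_ hsum
  rw [card_filter]
  push_cast
  apply sum_le_sum
  intro S _
  simp only [hf]
  by_cases hg : Good a b N (ε / 2) ξ S
  · rw [if_pos hg, if_neg]
    rw [not_not]
    intro Y X hYX hX
    refine (hg Y X hYX hX).trans ?_
    have : (0 : ℝ) ≤ N := Nat.cast_nonneg N
    nlinarith
  · rw [if_neg hg]
    split_ifs <;> norm_num

end Pool.Agent.Results.MP_a14ce1_nt.SubsetsOfWindows
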